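import Pool.Agent.helper84.LP.SpecG
import Pool.Agent.helper17.LQ.SpecQ

/-!
# MP_07c750 (quantum unique ergodicity, weight 10), THEOREM LQ (helper17, helper84): geometry and dynamics with windows at all scales, rows `lq:XXX`

THEOREM LQ: `F(h) + F(a) ≤ 1` whenever `0 ≤ h < 1`, `0 ≤ a < 1/2` and `3a + h < 2`; the uniform measure is contained in every quantum limit with at least the mass `F(1/3)`. Only the number of bad slopes changes against LP (QBB of helper17/LQ/SpecQ, fourth moments, in place of BBC); it needs `h`-regular sets: ONE family of boxes `A j` (`1 ≤ j ≤ G`) of length `j m`, used for the windows `[0, j m]` and `[(2G - j) m, 2G m]`.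

RULES as in LP/SpecG: row `lq:XXX` (problem MP_07c750_an): file `Pool/Agent/<seat>/LQ/XXX.lean`, `import Pool.Agent.helper84.LQ.SpecH` (and what you need), `set_option autoImplicit false`, namespace `Pool.Agent.LP`, the opens of this file, auxiliary lemmas prefixed `XXX_`, theorem `XXX_proof (h : YYY_stmt) .. : XXX_stmt`.
-/

open scoped MatrixGroups ContDiff Topology UpperHalfPlane ComplexConjugate
open UpperHalfPlane MeasureTheory Filter Set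

set_option autoImplicit false

namespace Pool.Agent.LP

open Pool.Agent.RS
open Pool.Agent.MS (bq BB BA SF pf)
open Pool.Agent.HV (FW)
open Pool.Agent.EN (XG MG mkX mkM fl pr)
open Pool.Agent.ER (Low LowJ)

noncomputable section

/-- the unstable coordinates `u` of the leaf of `z` with the futures `[(G - j) m, G m]` in the boxes `A j`, `1 ≤ j ≤ G` -/
def UW (Γ : Subgroup SL(2, ℝ)) (A : ℕ → Finset SL(2, ℝ)) (b : ℝ) (G m : ℕ) (z : SL(2, ℝ)) : Set ℝ :=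
  {u | |u| ≤ 2 ∧ ∀ j : ℕ, 1 ≤ j → j ≤ G → z * lM u * aM (((G : ℝ) - j) * m) ∈ FW Γ (A j) b (Real.exp (-(j * m)))}

/-- **Row UZQ** (short; adapt helper53/LP/UZL.lean; from HV.BWM, IR.YVO, RS.GLC). Measurable: `[-2, 2]` intersected with finitely many preimages. Length: YVO with `σ = (G - j) m`, `k = j m`, `v0 = y`, `|v - y| ≤ 3 e^(-σ)`. -/
def UZQ_stmt : Prop := ∀ Γ : Subgroup SL(2, ℝ), QU.SurfaceGroup Γ → ∃ C : ℝ, 1 ≤ C ∧ ∀ (b : ℝ) (G m : ℕ) (A : ℕ → Finset SL(2, ℝ)) (z : SL(2, ℝ)), 0 < b → b ≤ 1 / 100 →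
  MeasurableSet (UW Γ A b G m z) ∧ UW Γ A b G m z ⊆ Icc (-2 : ℝ) 2 ∧
    ∀ j : ℕ, 1 ≤ j → j ≤ G → ∀ y : ℝ, volume.real (UW Γ A b G m z ∩ Icc y (y + 3 * Real.exp (-(((G : ℝ) - j) * m)))) ≤ C * (A j).card * Real.exp (-(G * m))

/-- **Row MVQ** (short; adapt helper18/LP/MVU.lean; from MO2, RS.GLC). As MVU, for every `j` with `s = (G - j) m ≥ 0`. -/
def MVQ_stmt : Prop := ∀ (Γ : Subgroup SL(2, ℝ)) (b w τ x V : ℝ) (G m : ℕ) (A : ℕ → Finset SL(2, ℝ)) (h z : SL(2, ℝ)) (γ : Γ), 0 < b → b ≤ 1 / 400 → |w| ≤ b / 1000 → |τ| ≤ b / 1000 → |x| ≤ b / 1000 → |V| ≤ 1 →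
  (γ : SL(2, ℝ)) * h = z * lM w * aM τ * nM x → (∀ j : ℕ, 1 ≤ j → j ≤ G → h * lM V * aM (((G : ℝ) - j) * m) ∈ FW Γ (A j) b (Real.exp (-(j * m)))) →
    ∃ u ∈ UW Γ A (4 * b) G m z, V = -(w * Real.exp (τ / 2) / dX w τ x) + mm (sX w τ x) u / dX w τ x ^ 2

/-- the slope `X` on the stable leaf of `z` has a point whose past windows `[-G m, -(G - j) m]` are in the boxes `A j` -/
def KO (Γ : Subgroup SL(2, ℝ)) (A : ℕ → Finset SL(2, ℝ)) (b : ℝ) (G m : ℕ) (z : SL(2, ℝ)) (X : ℝ) : Prop :=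
  ∃ t u : ℝ, |t| ≤ 3 / 2 ∧ |u| ≤ 1 / 4 ∧ ∀ j : ℕ, 1 ≤ j → j ≤ G → z * nM X * aM t * lM u * aM (-(G * m)) ∈ FW Γ (A j) b (Real.exp (-(j * m)))

/-- **Row CTQ** (the occupied cells of slopes are regular; short-medium; from IR.CTB, RS.GLC). `ξ = (b/4) e^(-Gm)`, `s = (G - j) m`. Fix the `X0` of one element of the set; for the others `|X - X0| ≤ 2 e^(-s) + 2 ξ ≤ 3 e^(-s)`, `X = X0 + e^(-s) X'`, `y' = z nM X0 aM(-s)`:
`z nM X aM t lM u aM(-Gm) = y' nM X' aM t lM(e^(-s) u) aM(-(j m))`: CTB (`e = 1`) with `k = j m`: at most `C #(A j)` cells `⌊X' e^(jm)⌋`, i.e. intervals of length `e^(-Gm)` for `X`; each contains points of at most `4/b + 2` cells of length `ξ`. -/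
def CTQ_stmt : Prop := ∀ Γ : Subgroup SL(2, ℝ), QU.SurfaceGroup Γ → ∀ b : ℝ, 0 < b → b ≤ 1 / 6400 → ∃ C : ℝ, 1 ≤ C ∧ ∀ (G m : ℕ) (A : ℕ → Finset SL(2, ℝ)) (z : SL(2, ℝ)) (K : Finset ℤ),
  (∀ k ∈ K, ∃ X : ℝ, (k : ℝ) * (b / 4 * Real.exp (-(G * m))) ≤ X ∧ X < (k + 1) * (b / 4 * Real.exp (-(G * m))) ∧ KO Γ A (16 * b) G m z X) →
    ∀ j : ℕ, 1 ≤ j → j ≤ G → ∀ y : ℝ, ((K.filter fun k : ℤ => |(k : ℝ) * (b / 4 * Real.exp (-(G * m))) - y| ≤ Real.exp (-(((G : ℝ) - j) * m))).card : ℝ) ≤ C * (A j).card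

/-- **Row BAQ** (the bad boxes; medium; adapt helper34/LP/BAB.lean; from IR.NET, QBB, BBX, UZQ, CTQ, MO2, HV.BWM (invariance of `FW`)). `Z` from NET for `b/1000`. QBB for `C1' = max C1 (..)` and `β' < β` with `3a + 2h - 2 + 12η + 24/G < β'` (`a + h ≤ 4/3`, `2a + h ≤ 2`, `a + η ≤ 1` follow from the hypotheses). For `z ∈ Z`: `U = UW Γ A (64 b) G m z`; UGd: for `i < G` UZQ with `j = G - i` (`#(A j) e^(-Gm) ≤ e^((h+η)(G-i)m - Gm)`), for `i = G` the interval has the length `e^(-Gm)`.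
`ξ = (b/4) e^(-Gm)`; `K_z` = the `k` (finite range) such that the cell of `k` contains an `X` with `|X| ≤ 1/16`, `¬ GD U C1 ..` and `KO Γ A (16 b) G m z X`; AR for `K_z`: `|k| ≤ e^(Gm)/(4b) + 1`; `i = 0`: at most `3`; `i ≥ 1`: CTQ with `j = i` (`|k - y| ≤ e^(im)` implies `|k ξ - y ξ| ≤ e^(-(G-i)m)`). `#K_z ≤ e^(β' G m)`, `Ab` = the `z nM(k ξ) aM(-G m)`.
For `h0`: `γ h0 = z lM w aM τ nM x = z nM X aM t lM u`, `X = sX`, `e^(-t/2) = dX`, `u = w e^(τ/2)/dX`, so `KO` holds for `X` (`FW` is `Γ`-invariant); if `X` were bad then `k = ⌊X/ξ⌋ ∈ K_z` and BBX contradicts `h0 aM(-Gm) ∉ FW Ab`. -/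
def BAQ_stmt : Prop := ∀ Γ : Subgroup SL(2, ℝ), QU.SurfaceGroup Γ → ∀ (C1 a η h β b : ℝ) (G : ℕ), 1 ≤ C1 → 0 ≤ a → a < 1 / 2 → 0 < η → 0 ≤ h → h + η < 1 → 1 ≤ a + h → 3 * a + h ≤ 2 → 2 ≤ G → 0 < b → b ≤ 1 / 6400 → 3 * a + 2 * h - 2 + 12 * η + 24 / (G : ℝ) < β →
  ∃ m0 : ℕ, ∀ (m : ℕ) (A : ℕ → Finset SL(2, ℝ)), m0 ≤ m → (∀ j : ℕ, 1 ≤ j → j ≤ G → ((A j).card : ℝ) ≤ Real.exp ((h + η) * (j * m))) →
    ∃ Ab : Finset SL(2, ℝ), (Ab.card : ℝ) ≤ Real.exp (β * (G * m)) ∧ ∀ h0 : SL(2, ℝ), h0 * aM (-(G * m)) ∉ FW Γ Ab b (Real.exp (-(G * m))) →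
      (∀ j : ℕ, 1 ≤ j → j ≤ G → h0 * aM (-(G * m)) ∈ FW Γ (A j) (16 * b) (Real.exp (-(j * m)))) →
      ∃ (z : SL(2, ℝ)) (γ : Γ) (w τ x : ℝ), |w| ≤ b / 1000 ∧ |τ| ≤ b / 1000 ∧ |x| ≤ b / 1000 ∧ (γ : SL(2, ℝ)) * h0 = z * lM w * aM τ * nM x ∧ GD (UW Γ A (64 * b) G m z) C1 a η G m (sX w τ x)

/-- **Row LGQ** (THE LEAF INEQUALITY; medium; adapt helper75/LP/LGD.lean; from BAQ, MVQ, MO2, LCL, SBA, UZQ, RS.GLC). As LGD: `g lM v aM((2G - j) m) = h0 lM V aM((G - j) m)`; the density at the scale `1/(2H)` is UZQ for `j = 1`. -/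
def LGQ_stmt : Prop := ∀ Γ : Subgroup SL(2, ℝ), QU.SurfaceGroup Γ → ∀ (C1 a η h β b : ℝ) (G : ℕ), 1 ≤ C1 → 0 ≤ a → a < 1 / 2 → 0 < η → 0 ≤ h → h + η < 1 → 1 ≤ a + h → 3 * a + h ≤ 2 → 2 ≤ G → 0 < b → b ≤ 1 / 6400 → 3 * a + 2 * h - 2 + 12 * η + 24 / (G : ℝ) < β →
  ∃ (C : ℝ) (m0 : ℕ), 1 ≤ C ∧ ∀ (m : ℕ) (A : ℕ → Finset SL(2, ℝ)), m0 ≤ m → (∀ j : ℕ, 1 ≤ j → j ≤ G → ((A j).card : ℝ) ≤ Real.exp ((h + η) * (j * m))) →
    ∃ Ab : Finset SL(2, ℝ), (Ab.card : ℝ) ≤ Real.exp (β * (G * m)) ∧ ∀ (g : SL(2, ℝ)) (Y : Set ℝ) (J : Finset ℤ) (c : ℤ → ℂ), MeasurableSet Y → Y ⊆ Icc (0 : ℝ) 1 →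
      (∀ v ∈ Y, g * lM v ∉ FW Γ Ab b (Real.exp (-(G * m))) ∧ ∀ j : ℕ, 1 ≤ j → j ≤ G → g * lM v ∈ FW Γ (A j) (16 * b) (Real.exp (-(j * m))) ∧ g * lM v * aM ((2 * (G : ℝ) - j) * m) ∈ FW Γ (A j) (16 * b) (Real.exp (-(j * m)))) →
      AR C1 a η G m (DJ G m J) →
        ∫ v in Y, ‖∑ j ∈ J, c j * ee (Real.pi * j * v / 2)‖ ^ 2 ≤ C * (Real.exp ((h + η - 1) * m) + Real.exp (-m)) * ∑ j ∈ J, ‖c j‖ ^ 2

/-- **Row FGQ** (forward functions outside of the low entropy part; medium-long; adapt helper98/LP/FGD.lean with the product over the windows as in helper25/HH/HBK.lean; from MS.BXM, IR.SFP, WCO, IR.LOB, LGQ, EN.XFL, RS.GLC). `b` as in FGD, `C` from BXM, `C3 = (2G + 1) C + 1`. `A j` from WCO (`a := b`, `η`, `δ/(2G + 2)`) for the length `j m`; `Ψ_j` from BXM for `A j`, length `j m`.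
`Ψ(g) = (1 - Ψ_b(g)) Π_(j=1..G) (Ψ_j(g) Ψ_j(g aM((2G - j) m)))`. Derivatives: `|Ψl| ≤ C (e^(Gm) + Σ_j (e^(jm) + e^((2G-j)m) e^(jm)))`. Mass: the windows by WCO (times `0` and `(2G - j) m`), the bad boxes by LOB (`G` even, `2q = G m`, `16 b ≤ b1`). -/
def FGQ_stmt : Prop := ∀ (Γ : Subgroup SL(2, ℝ)) (μ : Measure (XG Γ)) (E : Set (XG Γ)) (a η h β : ℝ) (G : ℕ), QU.SurfaceGroup Γ → IsProbabilityMeasure μ → (∀ t, μ.map (fl Γ t) = μ) → 0 ≤ a → a < 1 / 2 → 0 < η → 0 ≤ h → h + η < 1 → 1 ≤ a + h → 3 * a + h ≤ 2 → 0 ≤ β →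
  Even G → 2 ≤ G → 3 * a + 2 * h - 2 + 12 * η + 24 / (G : ℝ) < β → CO Γ μ E h → FF Γ μ a η G (E \ Low Γ μ β)

/-- **Row FCQ** (THE CHAIN; short-medium; adapt helper82/LP/FCH.lean; from FGQ, FTR, FUN, COL). If `a + h < 1`: `η` with `a + h + 2η < 1`, `G = 1`, FTR. Let `a + h ≥ 1` (so `a > 0`). `κ0 = 2 - 3a - h > 0`, `g = min (κ0/2) (1/4)`; `η` small and `G` even and large with `12η + 24/G < κ0/2`, `η < a`, `h + η < 1`, `2a + 15η + 24/G < 1` (`a < 1/2`), `η ≤ 1/16`. CO and FF are monotone: `CO E β → CO E β'` for `β ≤ β'`.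
Induction on `k`: for all `β` with `0 ≤ β ≤ h`, `β ≤ (1 - a) + k g` and all `E` with `CO E β`: `FF E`. `k = 0`: `CO E (1 - a)`; FGQ with `h := 1 - a` (`3a + h = 1 + 2a ≤ 2`, `h + η < 1` since `η < a`) and `β := a + 13η + 24/G` (`3a + 2(1 - a) - 2 = a`), and FTR for `Low (a + 13η + 24/G)` (COL; `2a + 15η + 24/G < 1`); FUN. Step: `β > (1 - a) + k g`: FGQ with `h := β`, `β := β - g ≥ 0`: `3a + 2β - 2 + 12η + 24/G < β - g`, because `β - (3a + 2β - 2) = 2 - 3a - β ≥ κ0`; COL with the induction hypothesis, FUN. -/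
def FCQ_stmt : Prop := ∀ a h : ℝ, 0 ≤ a → a < 1 / 2 → 0 ≤ h → h < 1 → 3 * a + h < 2 → ∃ (η : ℝ) (G : ℕ), 0 < η ∧ 1 ≤ G ∧
  ∀ (Γ : Subgroup SL(2, ℝ)) (μ : Measure (XG Γ)) (E : Set (XG Γ)), QU.SurfaceGroup Γ → IsProbabilityMeasure μ → (∀ t, μ.map (fl Γ t) = μ) → CO Γ μ E h → FF Γ μ a η G E

/-- **Row LPQ** (THE THEOREM; short; from FCQ, BKA, with `LPM_core` of helper59/LP/LPM.lean: forward functions for `E` and BKA give `μ E + μ (Low a) ≤ 1`). -/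
def LPQ_stmt : Prop := ∀ (Γ : Subgroup SL(2, ℝ)) (μ : Measure (XG Γ)) (K a h : ℝ) (E : Set (XG Γ)), QU.SurfaceGroup Γ → IsProbabilityMeasure μ → (∀ t, μ.map (fl Γ t) = μ) → 1 ≤ K → IR.GP Γ μ K → 0 ≤ a → a < 1 / 2 → 0 ≤ h → h < 1 → 3 * a + h < 2 →
  CO Γ μ E h → μ.real E + μ.real (Low Γ μ a) ≤ 1

/-- **Row UPQ** (THE UNIFORM PART; short; from LPQ, LDB, MEV, EN.XFL, with `UPA_core` of helper27/LP/UPA.lean; `3a + h ≤ 1 + h < 2`). -/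
def UPQ_stmt : Prop := ∀ (Γ : Subgroup SL(2, ℝ)) (F : Set ℍ) (μ : Measure (XG Γ)) (K a : ℝ) (V : MG Γ → ℝ), QU.SurfaceGroup Γ → QU.NiceDom Γ F → IsProbabilityMeasure μ → (∀ t, μ.map (fl Γ t) = μ) → 1 ≤ K → IR.GP Γ μ K → 0 ≤ a → a ≤ 1 / 3 → Continuous V → (∀ y, 0 ≤ V y ∧ V y ≤ 1) →
  μ.real (Low Γ μ a) * ((∫ z in F, V (mkM Γ z)) / (volume F).toReal) ≤ ∫ x, V (pr Γ x) ∂μ

end

end Pool.Agent.LP
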